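import Pool.Agent.Helper74.HG.Goals

/-!
# Packet HG-UNIQ: the topological zeta function is unique

All three steps of the proof (power series in `T`, exponential sums in `e`, rational functions in
`s`) compare a ring `A` of numerators and denominators with an overring `B` and with its values in a
field; `Rel i ev F v` says that `F` is a fraction without pole with the value `v`.
-/

namespace Pool.Agent.Helper87.HG.UNIQ

open Pool.Agent.Helper74.HG

section Rel

variable {A B K : Type*} [CommRing A] [CommRing B] [Field K]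

/-- `F` is a fraction of elements of `A`, the value of the denominator is not zero, and `v` is the
value of the fraction. -/
def Rel (i : A →+* B) (ev : A →+* K) (F : B) (v : K) : Prop :=
  ∃ P D : A, ev D ≠ 0 ∧ i D * F = i P ∧ v * ev D = ev P

variable {i : A →+* B} {ev : A →+* K}

lemma Rel.add {F G : B} {v w : K} (h : Rel i ev F v) (k : Rel i ev G w) :
    Rel i ev (F + G) (v + w) := by
  obtain ⟨P, D, h1, h2, h3⟩ := h
  obtain ⟨P', D', k1, k2, k3⟩ := k
  refine ⟨P * D' + P' * D, D * D', ?_, ?_, ?_⟩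
  · rw [map_mul]; exact mul_ne_zero h1 k1
  · simp only [map_mul, map_add, ← h2, ← k2]; ring
  · simp only [map_mul, map_add, ← h3, ← k3]; ring

lemma Rel.mul {F G : B} {v w : K} (h : Rel i ev F v) (k : Rel i ev G w) :
    Rel i ev (F * G) (v * w) := by
  obtain ⟨P, D, h1, h2, h3⟩ := h
  obtain ⟨P', D', k1, k2, k3⟩ := k
  refine ⟨P * P', D * D', ?_, ?_, ?_⟩
  · rw [map_mul]; exact mul_ne_zero h1 k1
  · simp only [map_mul, ← h2, ← k2]; ring
  · simp only [map_mul, ← h3, ← k3]; ring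

lemma Rel.of (P : A) : Rel i ev (i P) (ev P) := ⟨P, 1, by simp, by simp, by simp⟩

lemma Rel.sum {α : Type*} (L : List α) (u : α → B) (v : α → K)
    (h : ∀ a ∈ L, Rel i ev (u a) (v a)) : Rel i ev (L.map u).sum (L.map v).sum := by
  induction L with
  | nil => simpa using Rel.of (i := i) (ev := ev) 0
  | cons a L ih =>
      rw [List.map_cons, List.sum_cons, List.map_cons, List.sum_cons]
      exact (h a (by simp)).add (ih fun b hb => h b (by simp [hb]))

lemma Rel.prod {α : Type*} (L : List α) (u : α → B) (v : α → K)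
    (h : ∀ a ∈ L, Rel i ev (u a) (v a)) : Rel i ev (L.map u).prod (L.map v).prod := by
  induction L with
  | nil => simpa using Rel.of (i := i) (ev := ev) 1
  | cons a L ih =>
      rw [List.map_cons, List.prod_cons, List.map_cons, List.prod_cons]
      exact (h a (by simp)).mul (ih fun b hb => h b (by simp [hb]))

lemma Rel.eq_zero {v : K} (hi : ∀ P, i P = 0 → ev P = 0) (h : Rel i ev 0 v) : v = 0 := by
  obtain ⟨P, D, h1, h2, h3⟩ := h
  rw [mul_zero] at h2
  rw [hi P h2.symm] at h3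
  exact (mul_eq_zero.1 h3).resolve_right h1

end Rel

/-! ### Quantum integers -/

/-- `1 + q + .. + q^(k-1)`. -/
noncomputable def qn (q : ℂ) (k : ℕ) : ℂ := ∑ j ∈ Finset.range k, q ^ j

lemma qn_mul (q : ℂ) (k : ℕ) : qn q k * (q - 1) = q ^ k - 1 := geom_sum_mul q k

lemma pow_ne_one {p e k : ℕ} (hp : 2 ≤ p) (he : 1 ≤ e) (hk : 1 ≤ k) :
    ((p : ℂ) ^ e) ^ k ≠ 1 := by
  have h : (p ^ e) ^ k ≠ 1 := by
    have h1 : 1 < p ^ e := Nat.one_lt_pow (by omega) (by omega)
    have h2 : 1 < (p ^ e) ^ k := Nat.one_lt_pow (by omega) h1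
    omega
  exact_mod_cast h

lemma qn_ne {p e k : ℕ} (hp : 2 ≤ p) (he : 1 ≤ e) (hk : 1 ≤ k) : qn ((p : ℂ) ^ e) k ≠ 0 := by
  intro h
  have h1 := qn_mul ((p : ℂ) ^ e) k
  rw [h, zero_mul] at h1
  exact pow_ne_one hp he hk (sub_eq_zero.1 h1.symm)

/-! ### Step 1: power series -/

/-- The value at `T = (q^s)⁻¹`. -/
noncomputable def evT (q : ℂ) (s : ℕ) : Polynomial ℂ →+* ℂ := Polynomial.evalRingHom (q ^ s)⁻¹

/-- Polynomials as power series. -/
noncomputable def iT : Polynomial ℂ →+* PowerSeries ℂ := Polynomial.coeToPowerSeries.ringHom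

lemma fac_eq (q : ℂ) (d : ℕ × ℕ) (hd : 0 < d.1) :
    (1 - PowerSeries.C (q ^ d.2)⁻¹ * PowerSeries.X ^ d.1) * fac q d =
      PowerSeries.C ((q - 1) * (q ^ d.2)⁻¹) * PowerSeries.X ^ d.1 := by
  obtain ⟨N, ν⟩ := d
  simp only at hd ⊢
  ext k
  rw [sub_mul, one_mul, map_sub, mul_assoc, PowerSeries.coeff_C_mul, PowerSeries.coeff_C_mul,
    PowerSeries.coeff_X_pow_mul', PowerSeries.coeff_X_pow]
  unfold fac
  simp only [PowerSeries.coeff_mk]
  rcases lt_trichotomy k N with hk | hk | hk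
  · rw [if_neg (by omega : ¬ N ≤ k), if_neg (by omega : ¬ k = N)]
    rw [if_neg]
    · ring
    · rintro ⟨h1, h2⟩
      exact absurd (Nat.le_of_dvd (by omega) h2) (by omega)
  · subst hk
    rw [if_pos ⟨by omega, dvd_refl k⟩, if_pos le_rfl, if_pos rfl, Nat.sub_self,
      if_neg (by simp), Nat.div_self hd]
    ring
  · rw [if_pos hk.le, if_neg (by omega : ¬ k = N)]
    by_cases h2 : N ∣ k
    · obtain ⟨c, rfl⟩ := h2
      have hc : 2 ≤ c := by
        by_contra hc
        have : c ≤ 1 := by omega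
        have h3 : N * c ≤ N * 1 := Nat.mul_le_mul_left _ this
        omega
      obtain ⟨b, rfl⟩ := Nat.exists_eq_add_of_le hc
      have h4 : N * (2 + b) - N = N * (1 + b) := by
        rw [show N * (2 + b) = N * (1 + b) + N by ring]; omega
      rw [if_pos ⟨by omega, dvd_mul_right _ _⟩, h4,
        if_pos ⟨by positivity, dvd_mul_right _ _⟩, Nat.mul_div_cancel_left _ hd,
        Nat.mul_div_cancel_left _ hd]
      rw [show ν * (2 + b) = ν + ν * (1 + b) by ring, pow_add, mul_inv]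
      ring
    · rw [if_neg (fun h => h2 h.2), if_neg]
      · ring
      · rintro ⟨_, h5⟩
        apply h2
        have : k = (k - N) + N := by omega
        rw [this]
        exact dvd_add h5 (dvd_refl N)

lemma rel_fac {p e s : ℕ} (hp : 2 ≤ p) (he : 1 ≤ e) (d : ℕ × ℕ) (hd : 0 < d.1 ∧ 0 < d.2) :
    Rel iT (evT ((p : ℂ) ^ e) s) (fac ((p : ℂ) ^ e) d) (qn ((p : ℂ) ^ e) (d.1 * s + d.2))⁻¹ := by
  set q : ℂ := (p : ℂ) ^ e with hq
  have hk : 1 ≤ d.1 * s + d.2 := by omega
  have h1 : q ^ (d.1 * s + d.2) ≠ 1 := pow_ne_one hp he hk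
  have h2 : qn q (d.1 * s + d.2) ≠ 0 := qn_ne hp he hk
  have h0 : q ≠ 0 := by
    rw [hq]
    have : (p : ℂ) ≠ 0 := by
      have : p ≠ 0 := by omega
      exact_mod_cast this
    exact pow_ne_zero _ this
  have h3 : q ^ (d.1 * s + d.2) ≠ 0 := pow_ne_zero _ h0
  have h4 : (q ^ d.2)⁻¹ * ((q ^ s)⁻¹) ^ d.1 = (q ^ (d.1 * s + d.2))⁻¹ := by
    rw [inv_pow, ← mul_inv, ← pow_mul q s, ← pow_add q,
      show d.2 + s * d.1 = d.1 * s + d.2 by ring]
  refine ⟨Polynomial.C ((q - 1) * (q ^ d.2)⁻¹) * Polynomial.X ^ d.1,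
    1 - Polynomial.C (q ^ d.2)⁻¹ * Polynomial.X ^ d.1, ?_, ?_, ?_⟩
  · simp only [evT, Polynomial.coe_evalRingHom, Polynomial.eval_sub, Polynomial.eval_one,
      Polynomial.eval_mul, Polynomial.eval_C, Polynomial.eval_pow, Polynomial.eval_X]
    rw [h4]
    intro h
    have h5 : (q ^ (d.1 * s + d.2))⁻¹ = 1 := (sub_eq_zero.1 h).symm
    exact h1 (inv_eq_one.1 h5)
  · have := fac_eq q d hd.1
    simpa [iT, Polynomial.coe_C, Polynomial.coe_X] using this
  · simp only [evT, Polynomial.coe_evalRingHom, Polynomial.eval_sub, Polynomial.eval_one,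
      Polynomial.eval_mul, Polynomial.eval_C, Polynomial.eval_pow, Polynomial.eval_X]
    rw [mul_assoc (q - 1), h4]
    have h5 := qn_mul q (d.1 * s + d.2)
    field_simp
    linear_combination -h5

/-- Step 1: the values at `T = q^(-s)`. -/
lemma step1 {p e s : ℕ} (hp : 2 ≤ p) (he : 1 ≤ e) (L : List Stratum)
    (hd : ∀ S ∈ L, ∀ d ∈ S.data, 0 < d.1 ∧ 0 < d.2)
    (h : (L.map fun S => S.ser p e).sum = 0) :
    (L.map fun S => S.c p e *
      (S.data.map fun d => (qn ((p : ℂ) ^ e) (d.1 * s + d.2))⁻¹).prod).sum = 0 := by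
  refine Rel.eq_zero (i := iT) (ev := evT ((p : ℂ) ^ e) s) ?_ ?_
  · intro P hP
    have : P = 0 := by
      apply Polynomial.coe_injective ℂ
      simpa [iT] using hP
    rw [this, map_zero]
  · rw [← h]
    refine Rel.sum L _ _ fun S hS => ?_
    unfold Stratum.ser
    refine Rel.mul ?_ ?_
    · have := Rel.of (i := iT) (ev := evT ((p : ℂ) ^ e) s) (Polynomial.C (S.c p e))
      simpa [iT, evT, Polynomial.coe_C] using this
    · exact Rel.prod S.data _ _ fun d hd' => rel_fac hp he d (hd S hS d hd')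

/-! ### Step 2: exponential sums -/

/-- The character `e ↦ a^(e+1)`. -/
noncomputable def chr : ℂˣ →* (ℕ → ℂ) where
  toFun a := fun e => (a : ℂ) ^ (e + 1)
  map_one' := by ext e; simp
  map_mul' a b := by ext e; simp [mul_pow]

/-- Exponential sums as functions of `e`. -/
noncomputable def iE : MonoidAlgebra ℤ ℂˣ →+* (ℕ → ℂ) :=
  (MonoidAlgebra.lift ℤ (ℕ → ℂ) ℂˣ chr : MonoidAlgebra ℤ ℂˣ →ₐ[ℤ] (ℕ → ℂ))

/-- The value at `e = 0`. -/
noncomputable def evE : MonoidAlgebra ℤ ℂˣ →+* ℂ :=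
  (MonoidAlgebra.lift ℤ ℂ ℂˣ 1 : MonoidAlgebra ℤ ℂˣ →ₐ[ℤ] ℂ)

lemma iE_apply (P : MonoidAlgebra ℤ ℂˣ) (e : ℕ) :
    iE P e = P.coeff.sum fun a m => (m : ℂ) * (a : ℂ) ^ (e + 1) := by
  unfold iE
  rw [RingHom.coe_coe, MonoidAlgebra.lift_apply, Finsupp.sum, Finsupp.sum, Finset.sum_apply]
  refine Finset.sum_congr rfl fun a _ => ?_
  simp [chr]

lemma iE_single (a : ℂˣ) (m : ℤ) (e : ℕ) :
    iE (MonoidAlgebra.single a m) e = (m : ℂ) * (a : ℂ) ^ (e + 1) := by
  rw [iE_apply, MonoidAlgebra.coeff_single, Finsupp.sum_single_index]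
  simp

lemma evE_single (a : ℂˣ) (m : ℤ) : evE (MonoidAlgebra.single a m) = (m : ℂ) := by
  unfold evE
  simp

/-- Exponential sums which vanish are zero. -/
lemma iE_inj (P : MonoidAlgebra ℤ ℂˣ) (h : iE P = 0) : P = 0 := by
  have hli := linearIndependent_monoidHom (Multiplicative ℕ) ℂ
  have hinj : Function.Injective fun a : ℂˣ => powersHom ℂ (a : ℂ) :=
    (powersHom ℂ).injective.comp Units.val_injective
  have h2 := hli.comp _ hinj
  rw [linearIndependent_iff'] at h2
  have h3 := h2 P.coeff.support (fun a => (P.coeff a : ℂ) * (a : ℂ)) (by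
    ext n
    have h4 := congrFun h (Multiplicative.toAdd n)
    rw [iE_apply, Finsupp.sum] at h4
    simp only [Finset.sum_apply, Pi.smul_apply, Function.comp_apply, smul_eq_mul,
      powersHom_apply, Pi.zero_apply] at h4 ⊢
    rw [← h4]
    refine Finset.sum_congr rfl fun a _ => ?_
    rw [pow_succ']
    ring)
  by_contra hP
  have hP' : P.coeff ≠ 0 := fun h => hP (by ext a; rw [h]; rfl)
  obtain ⟨a, ha⟩ := Finsupp.support_nonempty_iff.2 hP'
  have h5 := h3 a ha
  have h6 : P.coeff a ≠ 0 := Finsupp.mem_support_iff.1 ha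
  rcases mul_eq_zero.1 h5 with h7 | h7
  · exact h6 (by exact_mod_cast h7)
  · exact a.ne_zero h7

lemma rel_exp (c : ℕ → ℂ) (v : ℤ) (h : ExpVal c v) :
    Rel iE evE (fun e => c (e + 1)) (v : ℂ) := by
  obtain ⟨r, m, a, ha, hc, hv⟩ := h
  have h1 := Rel.of (i := iE) (ev := evE)
    (∑ j, MonoidAlgebra.single (Units.mk0 (a j) (ha j)) (m j))
  have h2 : iE (∑ j, MonoidAlgebra.single (Units.mk0 (a j) (ha j)) (m j)) =
      fun e => c (e + 1) := by
    ext e
    rw [map_sum, Finset.sum_apply, hc (e + 1) (by omega)]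
    refine Finset.sum_congr rfl fun j _ => ?_
    rw [iE_single, Units.val_mk0]
  have h3 : evE (∑ j, MonoidAlgebra.single (Units.mk0 (a j) (ha j)) (m j)) = (v : ℂ) := by
    rw [map_sum, hv, Int.cast_sum]
    exact Finset.sum_congr rfl fun j _ => evE_single _ _
  rwa [h2, h3] at h1

lemma rel_qn {p k : ℕ} (hp : 2 ≤ p) (hk : 1 ≤ k) :
    Rel iE evE (fun e => (qn ((p : ℂ) ^ (e + 1)) k)⁻¹) (k : ℂ)⁻¹ := by
  have hp0 : (p : ℂ) ≠ 0 := by
    have : p ≠ 0 := by omega
    exact_mod_cast this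
  have hk0 : (k : ℂ) ≠ 0 := by
    have : k ≠ 0 := by omega
    exact_mod_cast this
  have h3 : evE (∑ j ∈ Finset.range k, MonoidAlgebra.single ((Units.mk0 (p : ℂ) hp0) ^ j) 1) =
      (k : ℂ) := by
    rw [map_sum]
    simp [evE_single]
  refine ⟨1, ∑ j ∈ Finset.range k, MonoidAlgebra.single ((Units.mk0 (p : ℂ) hp0) ^ j) 1,
    ?_, ?_, ?_⟩
  · rwa [h3]
  · rw [map_one]
    ext e
    rw [Pi.mul_apply, map_sum, Finset.sum_apply, Pi.one_apply]
    have h4 : ∑ j ∈ Finset.range k,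
        iE (MonoidAlgebra.single ((Units.mk0 (p : ℂ) hp0) ^ j) 1) e =
        qn ((p : ℂ) ^ (e + 1)) k := by
      unfold qn
      refine Finset.sum_congr rfl fun j _ => ?_
      rw [iE_single, Units.val_pow_eq_pow_val, Units.val_mk0, Int.cast_one, one_mul, ← pow_mul,
        ← pow_mul, mul_comm]
    rw [h4, mul_inv_cancel₀ (qn_ne hp (by omega) hk)]
  · rw [h3, map_one, inv_mul_cancel₀ hk0]

/-- Step 2: the values at `e = 0`. -/
lemma step2 {p s : ℕ} (hp : 2 ≤ p) (L : List Stratum)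
    (hd : ∀ S ∈ L, ∀ d ∈ S.data, 0 < d.1 ∧ 0 < d.2) (hc : ∀ S ∈ L, ExpVal (S.c p) S.chi)
    (h : ∀ e, 1 ≤ e → (L.map fun S => S.ser p e).sum = 0) :
    (L.map fun S => (S.chi : ℂ) *
      (S.data.map fun d => (((d.1 * s + d.2 : ℕ) : ℂ))⁻¹).prod).sum = 0 := by
  refine Rel.eq_zero (i := iE) (ev := evE) (fun P hP => by rw [iE_inj P hP, map_zero]) ?_
  have h1 : Rel iE evE
      (L.map fun S => (fun e => S.c p (e + 1)) *
        (S.data.map fun d => (fun e => (qn ((p : ℂ) ^ (e + 1)) (d.1 * s + d.2))⁻¹ : ℕ → ℂ)).prod).sum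
      (L.map fun S => (S.chi : ℂ) *
        (S.data.map fun d => (((d.1 * s + d.2 : ℕ) : ℂ))⁻¹).prod).sum :=
    Rel.sum L _ _ fun S hS => (rel_exp _ _ (hc S hS)).mul
      (Rel.prod S.data _ _ fun d hd' => rel_qn hp (by have := hd S hS d hd'; omega))
  have h2 : (L.map fun S => (fun e => S.c p (e + 1)) *
        (S.data.map fun d => (fun e => (qn ((p : ℂ) ^ (e + 1)) (d.1 * s + d.2))⁻¹ : ℕ → ℂ)).prod).sum
        = 0 := by
    ext e
    rw [Pi.zero_apply, ← step1 (s := s) hp (by omega : 1 ≤ e + 1) L hd (h (e + 1) (by omega))]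
    have h5 : ∀ M : List (ℕ → ℂ), M.sum e = (M.map fun g => g e).sum := fun M =>
      map_list_sum (Pi.evalAddMonoidHom (fun _ : ℕ => ℂ) e) M
    have h6 : ∀ M : List (ℕ → ℂ), M.prod e = (M.map fun g => g e).prod := fun M =>
      map_list_prod (Pi.evalMonoidHom (fun _ : ℕ => ℂ) e) M
    rw [h5, List.map_map]
    refine congrArg List.sum (List.map_congr_left fun S _ => ?_)
    simp only [Function.comp_apply, Pi.mul_apply]
    rw [h6, List.map_map]
    rfl
  rwa [h2] at h1

/-! ### Step 3: rational functions -/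

/-- The value at `s`. -/
noncomputable def evS (s : ℕ) : Polynomial ℂ →+* ℂ := Polynomial.evalRingHom (s : ℂ)

/-- Polynomials as rational functions. -/
noncomputable def iS : Polynomial ℂ →+* RatFunc ℂ := algebraMap (Polynomial ℂ) (RatFunc ℂ)

lemma rel_rat (s : ℕ) (d : ℕ × ℕ) (hd : 0 < d.1 ∧ 0 < d.2) :
    Rel iS (evS s) ((d.1 : RatFunc ℂ) * RatFunc.X + (d.2 : RatFunc ℂ))⁻¹
      (((d.1 * s + d.2 : ℕ) : ℂ))⁻¹ := by
  have h1 : evS s (Polynomial.C (d.1 : ℂ) * Polynomial.X + Polynomial.C (d.2 : ℂ)) =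
      ((d.1 * s + d.2 : ℕ) : ℂ) := by
    simp [evS]
  have h0 : ((d.1 * s + d.2 : ℕ) : ℂ) ≠ 0 := by
    have : d.1 * s + d.2 ≠ 0 := by omega
    exact_mod_cast this
  have h2 : iS (Polynomial.C (d.1 : ℂ) * Polynomial.X + Polynomial.C (d.2 : ℂ)) =
      (d.1 : RatFunc ℂ) * RatFunc.X + (d.2 : RatFunc ℂ) := by
    simp [iS, RatFunc.algebraMap_X]
  have h3 : (d.1 : RatFunc ℂ) * RatFunc.X + (d.2 : RatFunc ℂ) ≠ 0 := by
    rw [← h2]
    intro h
    have h4 : (Polynomial.C (d.1 : ℂ) * Polynomial.X + Polynomial.C (d.2 : ℂ)) = 0 :=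
      (RatFunc.algebraMap_injective ℂ) (by rw [map_zero]; exact h)
    rw [h4, map_zero] at h1
    exact h0 h1.symm
  refine ⟨1, Polynomial.C (d.1 : ℂ) * Polynomial.X + Polynomial.C (d.2 : ℂ), ?_, ?_, ?_⟩
  · rwa [h1]
  · rw [h2, mul_inv_cancel₀ h3, map_one]
  · rw [h1, inv_mul_cancel₀ h0, map_one]

/-- A rational function whose values at the natural numbers are zero is zero. -/
lemma ratfunc_zero (F : RatFunc ℂ) (h : ∀ s : ℕ, Rel iS (evS s) F 0) : F = 0 := by
  have h1 : ∀ s : ℕ, F.num.IsRoot (s : ℂ) := by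
    intro s
    obtain ⟨P, D, h1, h2, h3⟩ := h s
    rw [zero_mul] at h3
    have h4 : iS (D * F.num) = iS (P * F.denom) := by
      have h5 : F = iS F.num / iS F.denom := (RatFunc.num_div_denom F).symm
      have h6 : iS F.denom ≠ 0 := by
        intro h7
        exact F.denom_ne_zero ((RatFunc.algebraMap_injective ℂ) (by rw [map_zero]; exact h7))
      rw [map_mul, map_mul, ← h2]
      nth_rewrite 2 [h5]
      field_simp
    have h5 : D * F.num = P * F.denom := RatFunc.algebraMap_injective ℂ h4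
    have h6 := congrArg (evS s) h5
    rw [map_mul, map_mul, ← h3, zero_mul] at h6
    exact (mul_eq_zero.1 h6).resolve_left h1
  have h2 : F.num = 0 := by
    refine Polynomial.eq_zero_of_infinite_isRoot _ ?_
    refine (Set.infinite_range_of_injective (f := fun s : ℕ => (s : ℂ)) Nat.cast_injective).mono ?_
    rintro _ ⟨s, rfl⟩
    exact h1 s
  exact RatFunc.num_eq_zero_iff.1 h2

/-- Steps 1-3 together. -/
lemma sum_rat {p : ℕ} (hp : 2 ≤ p) (L : List Stratum)
    (hd : ∀ S ∈ L, ∀ d ∈ S.data, 0 < d.1 ∧ 0 < d.2) (hc : ∀ S ∈ L, ExpVal (S.c p) S.chi)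
    (h : ∀ e, 1 ≤ e → (L.map fun S => S.ser p e).sum = 0) :
    (L.map Stratum.rat).sum = 0 := by
  refine ratfunc_zero _ fun s => ?_
  rw [← step2 (s := s) hp L hd hc h]
  refine Rel.sum L _ _ fun S hS => ?_
  unfold Stratum.rat
  refine Rel.mul ?_ (Rel.prod S.data _ _ fun d hd' => rel_rat s d (hd S hS d hd'))
  have := Rel.of (i := iS) (ev := evS s) ((S.chi : ℤ) : Polynomial ℂ)
  simpa [iS, evS] using this

/-- The negative of a stratum. -/
noncomputable def neg (S : Stratum) : Stratum := ⟨fun p e => - S.c p e, - S.chi, S.data⟩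

lemma neg_ser (S : Stratum) (p e : ℕ) : (neg S).ser p e = - S.ser p e := by
  simp [neg, Stratum.ser]

lemma neg_rat (S : Stratum) : (neg S).rat = - S.rat := by
  simp [neg, Stratum.rat]

lemma neg_exp (S : Stratum) (p : ℕ) (h : ExpVal (S.c p) S.chi) :
    ExpVal ((neg S).c p) (neg S).chi := by
  obtain ⟨r, m, a, ha, hc, hv⟩ := h
  refine ⟨r, fun i => - m i, a, ha, fun e he => ?_, ?_⟩
  · simp only [neg, hc e he, Int.cast_neg, neg_mul, Finset.sum_neg_distrib]
  · simp [neg, hv]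

lemma sum_neg {α β : Type*} [AddCommGroup β] (L : List α) (u : α → β) :
    (L.map fun a => - u a).sum = - (L.map u).sum := by
  induction L with
  | nil => simp
  | cons a L ih => simp only [List.map_cons, List.sum_cons, ih, neg_add]

theorem t : Pool.Agent.Helper74.HG.UNIQ := by
  intro σ _ f Z Z' hZ hZ'
  obtain ⟨L, p₀, hd, hL, rfl⟩ := hZ
  obtain ⟨L', p₁, hd', hL', rfl⟩ := hZ'
  obtain ⟨p, hp, hpp⟩ := Nat.exists_infinite_primes (max p₀ p₁)
  have : Fact p.Prime := ⟨hpp⟩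
  obtain ⟨hE, hS⟩ := hL p (le_trans (le_max_left _ _) hp)
  obtain ⟨hE', hS'⟩ := hL' p (le_trans (le_max_right _ _) hp)
  have key := sum_rat (p := p) hpp.two_le (L ++ L'.map neg)
    (by
      intro S hS d hd1
      rw [List.mem_append, List.mem_map] at hS
      rcases hS with hS | ⟨S', hS', rfl⟩
      · exact hd S hS d hd1
      · exact hd' S' hS' d hd1)
    (by
      intro S hS
      rw [List.mem_append, List.mem_map] at hS
      rcases hS with hS | ⟨S', hS', rfl⟩
      · exact hE S hS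
      · exact neg_exp S' p (hE' S' hS'))
    (by
      intro e he
      rw [List.map_append, List.sum_append, List.map_map]
      have h1 : (L'.map ((fun S => Stratum.ser S p e) ∘ neg)).sum =
          - (L'.map fun S => S.ser p e).sum := by
        rw [← sum_neg]
        exact congrArg List.sum (List.map_congr_left fun S _ => neg_ser S p e)
      rw [h1]
      have h2 : (L.map fun S => S.ser p e).sum = (L'.map fun S => S.ser p e).sum := by
        ext m
        rw [← hS e m he, ← hS' e m he]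
      rw [h2, add_neg_cancel])
  rw [List.map_append, List.sum_append, List.map_map] at key
  have h1 : (L'.map (Stratum.rat ∘ neg)).sum = - (L'.map Stratum.rat).sum := by
    rw [← sum_neg]
    exact congrArg List.sum (List.map_congr_left fun S _ => neg_rat S)
  rw [h1] at key
  exact sub_eq_zero.1 (by rw [sub_eq_add_neg]; exact key)

end Pool.Agent.Helper87.HG.UNIQ
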